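import Pool.Agent.Run7.h241.CS.Iface

/-! Project CS (helper241, MP_176ace_nt), piece ALG. -/

set_option autoImplicit false

namespace Run7.h241.CS.Alg

open Run7.h241.CS
open Polynomial

theorem eval_dFP (A : ℝ[X]) (κ x : ℝ) : (derivative (FP A κ)).eval x =
    (derivative A).eval x * ((x ^ 3 - 7 * x) ^ 2 - κ) +
      A.eval x * (2 * (x ^ 3 - 7 * x) * (3 * x ^ 2 - 7)) := by
  unfold FP
  rw [derivative_mul]
  simp only [eval_add, eval_mul, derivative_sub, derivative_pow, derivative_mul, derivative_X,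
    derivative_C, eval_sub, eval_pow, eval_X, eval_C, eval_zero, eval_natCast, mul_one, zero_mul,
    zero_add, sub_zero]
  simp

theorem roots7 (x : ℝ) (h : x ^ 3 - 7 * x = 0) : x = 0 ∨ x = Real.sqrt 7 ∨ x = - Real.sqrt 7 := by
  have h7 : Real.sqrt 7 ^ 2 = 7 := Real.sq_sqrt (by norm_num)
  have h1 : x * ((x - Real.sqrt 7) * (x + Real.sqrt 7)) = 0 := by
    have : x * ((x - Real.sqrt 7) * (x + Real.sqrt 7)) = x ^ 3 - Real.sqrt 7 ^ 2 * x := by ring
    rw [this, h7, h]
  rcases mul_eq_zero.1 h1 with h2 | h2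
  · exact Or.inl h2
  · rcases mul_eq_zero.1 h2 with h3 | h3
    · exact Or.inr (Or.inl (by linarith))
    · exact Or.inr (Or.inr (by linarith))

theorem roots73 (x : ℝ) (h : 3 * x ^ 2 - 7 = 0) :
    x = Real.sqrt (7 / 3) ∨ x = - Real.sqrt (7 / 3) := by
  have h7 : Real.sqrt (7 / 3) ^ 2 = 7 / 3 := Real.sq_sqrt (by norm_num)
  exact sq_eq_sq_iff_eq_or_eq_neg.1 (by rw [h7]; linarith)

theorem single (A : ℝ[X]) (h1 : A.eval (Real.sqrt 7) ≠ A.eval (- Real.sqrt 7))
    (h2 : A.eval 0 ≠ A.eval (Real.sqrt 7)) (h3 : A.eval 0 ≠ A.eval (- Real.sqrt 7))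
    (h4 : A.eval (Real.sqrt (7 / 3)) ≠ A.eval (- Real.sqrt (7 / 3))) (κ κ' x y : ℝ)
    (hκ : κ ≠ κ') (hxy : x ≠ y) (hA : A.eval x = A.eval y) (hA0 : A.eval x ≠ 0)
    (hW : (x ^ 3 - 7 * x) ^ 2 = (y ^ 3 - 7 * y) ^ 2)
    (a1 : (derivative (FP A κ)).eval x = 0) (a2 : (derivative (FP A κ')).eval x = 0)
    (b1 : (derivative (FP A κ)).eval y = 0) (b2 : (derivative (FP A κ')).eval y = 0) : False := by
  have key : ∀ z : ℝ, A.eval z ≠ 0 → (derivative (FP A κ)).eval z = 0 →
      (derivative (FP A κ')).eval z = 0 → (z ^ 3 - 7 * z = 0 ∨ 3 * z ^ 2 - 7 = 0) := by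
    intro z hz c1 c2
    rw [eval_dFP] at c1 c2
    have e1 : (derivative A).eval z * (κ - κ') = 0 := by linear_combination c2 - c1
    have e2 : (derivative A).eval z = 0 := by
      rcases mul_eq_zero.1 e1 with h | h
      · exact h
      · exact absurd (sub_eq_zero.1 h) hκ
    rw [e2, zero_mul, zero_add] at c1
    rcases mul_eq_zero.1 c1 with h | h
    · exact absurd h hz
    · rcases mul_eq_zero.1 h with h | h
      · left
        linarith
      · right
        exact h
  have kx := key x hA0 a1 a2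
  have ky := key y (hA ▸ hA0) b1 b2
  by_cases hx : x ^ 3 - 7 * x = 0
  · have hy : y ^ 3 - 7 * y = 0 := by
      rw [hx] at hW
      exact pow_eq_zero_iff (two_ne_zero) |>.1 (by rw [← hW]; ring)
    rcases roots7 x hx with rfl | rfl | rfl <;> rcases roots7 y hy with rfl | rfl | rfl
    · exact hxy rfl
    · exact h2 hA
    · exact h3 hA
    · exact h2 hA.symm
    · exact hxy rfl
    · exact h1 hA
    · exact h3 hA.symm
    · exact h1 hA.symm
    · exact hxy rfl
  · have hy : y ^ 3 - 7 * y ≠ 0 := by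
      intro hy
      rw [hy] at hW
      exact hx (pow_eq_zero_iff (two_ne_zero) |>.1 (by rw [hW]; ring))
    have kx' := kx.resolve_left hx
    have ky' := ky.resolve_left hy
    rcases roots73 x kx' with rfl | rfl <;> rcases roots73 y ky' with rfl | rfl
    · exact hxy rfl
    · exact h4 hA
    · exact h4 hA.symm
    · exact hxy rfl

/-- **ALG** from CON -/
theorem t_ALG (hcon : S_CON) : S_ALG := by
  intro A h1 h2 h3 h4 K x y hK
  by_contra hinf
  have hinf : K.Infinite := hinf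
  have hinj : Set.InjOn (fun κ => (x κ, y κ)) K := by
    intro κ hκ κ' hκ' he
    by_contra hne
    have e1 : x κ = x κ' := congrArg Prod.fst he
    have e2 : y κ = y κ' := congrArg Prod.snd he
    obtain ⟨c1, c2, c3, c4, c5, c6⟩ := hK κ hκ
    obtain ⟨-, -, -, -, d5, d6⟩ := hK κ' hκ'
    rw [← e1] at d5
    rw [← e2] at d6
    exact single A h1 h2 h3 h4 κ κ' (x κ) (y κ) hne c1 c2 c3 c4 c5 d5 c6 d6
  have hP := hinf.image hinj
  have hsub : (fun κ => (x κ, y κ)) '' K ⊆
      {p : ℝ × ℝ | p.2 = - p.1 ∧ A.eval p.1 = A.eval p.2} ∪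
      ({p : ℝ × ℝ | p.1 ^ 2 + 1 * (p.1 * p.2) + p.2 ^ 2 = 7 ∧ A.eval p.1 = A.eval p.2} ∪
      {p : ℝ × ℝ | p.1 ^ 2 + (-1) * (p.1 * p.2) + p.2 ^ 2 = 7 ∧ A.eval p.1 = A.eval p.2}) := by
    rintro p ⟨κ, hκ, rfl⟩
    obtain ⟨c1, c2, c3, c4, c5, c6⟩ := hK κ hκ
    simp only [Set.mem_union, Set.mem_setOf_eq]
    rcases sq_eq_sq_iff_eq_or_eq_neg.1 c4 with h | h
    · right
      left
      refine ⟨?_, c2⟩
      have : (x κ - y κ) * (x κ ^ 2 + x κ * y κ + y κ ^ 2 - 7) = 0 := by
        linear_combination h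
      rcases mul_eq_zero.1 this with h' | h'
      · exact absurd (sub_eq_zero.1 h') c1
      · linarith
    · have : (x κ + y κ) * (x κ ^ 2 - x κ * y κ + y κ ^ 2 - 7) = 0 := by
        linear_combination h
      rcases mul_eq_zero.1 this with h' | h'
      · left
        exact ⟨by linarith, c2⟩
      · right
        right
        exact ⟨by linarith, c2⟩
  have hP' := hP.mono hsub
  rw [Set.infinite_union, Set.infinite_union] at hP'
  rcases hP' with h | h | h
  · have hz : {t : ℝ | (A - A.comp (-X)).IsRoot t}.Infinite := by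
      have h' : (Prod.fst '' {p : ℝ × ℝ | p.2 = - p.1 ∧ A.eval p.1 = A.eval p.2}).Infinite := by
        apply h.image
        rintro ⟨p1, p2⟩ ⟨hp, -⟩ ⟨q1, q2⟩ ⟨hq, -⟩ hpq
        simp only at hp hq hpq
        subst hpq
        rw [hp, hq]
      apply h'.mono
      rintro t ⟨⟨p1, p2⟩, ⟨hp, hp2⟩, rfl⟩
      simp only at hp hp2
      simp only [Set.mem_setOf_eq, IsRoot, eval_sub, eval_comp, eval_neg, eval_X]
      rw [hp2, hp, sub_self]
    have h0 := Polynomial.eq_zero_of_infinite_isRoot _ hz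
    apply h1
    have := congrArg (eval (Real.sqrt 7)) h0
    simp only [eval_sub, eval_comp, eval_neg, eval_X, eval_zero] at this
    linarith
  · rcases hcon A 1 (Or.inl rfl) h with h' | h'
    · exact h2 h'
    · exact h3 h'
  · rcases hcon A (-1) (Or.inr rfl) h with h' | h'
    · exact h2 h'
    · exact h3 h'

end Run7.h241.CS.Alg
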