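import Pool.Agent.Run7.h241.CS.Iface

set_option autoImplicit false

namespace Run7.h241.CS

open Polynomial Filter Topology

lemma evFP (A : ℝ[X]) (κ x : ℝ) : (FP A κ).eval x = A.eval x * ((x ^ 3 - 7 * x) ^ 2 - κ) := by
  simp [FP]

theorem t_TIE (hL : S_LOC) (hM : S_MON) (hA : S_ALG) : S_TIE := by
  classical
  intro A κ₀ ε R K hε hR hPR c1 c2 c3 c4 hdense
  by_contra hneg
  push Not at hneg
  obtain ⟨C, δ, η, hδ, hη, hsep, hloc⟩ := hL A κ₀ R hR hPR
  obtain ⟨ρ, hρ, hρε, hρη⟩ : ∃ ρ, 0 < ρ ∧ ρ < ε ∧ ρ < η :=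
    ⟨min ε η / 2, by positivity, by
      have := min_le_left ε η
      have : 0 < min ε η := lt_min hε hη
      linarith, by
      have := min_le_right ε η
      have : 0 < min ε η := lt_min hε hη
      linarith⟩
  have hch : ∀ c κ : ℝ, ∃ x : ℝ, |κ - κ₀| < η → c ∈ C →
      (|x - c| < δ ∧ (derivative (FP A κ)).eval x = 0 ∧
          (FP A κ).eval x < 0 ∧ (∀ y : ℝ, |y - c| ≤ δ → (FP A κ).eval x ≤ (FP A κ).eval y) ∧
          ∀ y : ℝ, |y - c| ≤ δ → (derivative (FP A κ)).eval y = 0 → y = x) := by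
    intro c κ
    by_cases h1 : |κ - κ₀| < η
    · by_cases h2 : c ∈ C
      · obtain ⟨x, hx⟩ := (hloc κ h1).1 c h2
        exact ⟨x, fun _ _ => hx⟩
      · exact ⟨0, fun _ h => absurd h h2⟩
    · exact ⟨0, fun h => absurd h h1⟩
  choose X hX using hch
  let D : ℝ → ℝ → ℝ := fun c κ => (FP A κ).eval (X c κ)
  have key : ∀ c ∈ C, ∀ κ κ' : ℝ, |κ - κ₀| < η → |κ' - κ₀| < η →
      D c κ' ≤ D c κ - (κ' - κ) * A.eval (X c κ) := by
    intro c hc κ κ' h1 h2
    have h3 := (hX c κ' h2 hc).2.2.2.1 (X c κ) (hX c κ h1 hc).1.le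
    have h4 : (FP A κ').eval (X c κ) = D c κ - (κ' - κ) * A.eval (X c κ) := by
      show (FP A κ').eval (X c κ) = (FP A κ).eval (X c κ) - (κ' - κ) * A.eval (X c κ)
      rw [evFP, evFP]
      ring
    rw [← h4]
    exact h3
  -- continuity
  have hcont : ∀ c ∈ C, ContinuousOn (D c) (Set.Icc (κ₀ - ρ) (κ₀ + ρ)) := by
    intro c hc
    obtain ⟨M, hM⟩ := (isCompact_Icc (a := c - δ) (b := c + δ)).exists_bound_of_continuousOn
      (f := fun x => A.eval x) A.continuous.continuousOn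
    have hlip : ∀ κ κ' : ℝ, |κ - κ₀| < η → |κ' - κ₀| < η → D c κ' - D c κ ≤ M * |κ' - κ| := by
      intro κ κ' h1 h2
      have h3 := key c hc κ κ' h1 h2
      have h4 := (hX c κ h1 hc).1
      rw [abs_lt] at h4
      have h5 := hM (X c κ) ⟨by linarith, by linarith⟩
      rw [Real.norm_eq_abs] at h5
      have h6 : -((κ' - κ) * A.eval (X c κ)) ≤ |κ' - κ| * |A.eval (X c κ)| := by
        rw [← abs_mul]
        exact neg_le_abs _
      have h7 : |κ' - κ| * |A.eval (X c κ)| ≤ |κ' - κ| * M :=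
        mul_le_mul_of_nonneg_left h5 (abs_nonneg _)
      nlinarith
    have hM0 : 0 ≤ M := (abs_nonneg _).trans (by
      have := hM c ⟨by linarith, by linarith⟩
      rw [Real.norm_eq_abs] at this
      exact this)
    have hL2 : LipschitzOnWith (Real.toNNReal M) (D c) (Set.Icc (κ₀ - ρ) (κ₀ + ρ)) := by
      apply LipschitzOnWith.of_dist_le_mul
      intro κ hκ κ' hκ'
      have g1 : |κ - κ₀| < η := by rw [abs_lt]; constructor <;> linarith [hκ.1, hκ.2]
      have g2 : |κ' - κ₀| < η := by rw [abs_lt]; constructor <;> linarith [hκ'.1, hκ'.2]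
      rw [Real.dist_eq, Real.dist_eq, Real.coe_toNNReal _ hM0, abs_sub_le_iff]
      refine ⟨hlip κ' κ g2 g1, ?_⟩
      have := hlip κ κ' g1 g2
      rwa [abs_sub_comm κ κ']
    exact hL2.continuousOn
  let J : Set ℝ := Set.Ioo (κ₀ - ρ) (κ₀ + ρ)
  let f : Option (C × C) → Set ℝ := fun o => match o with
    | none => Jᶜ
    | some p => {κ | κ ∈ Set.Icc (κ₀ - ρ) (κ₀ + ρ) ∧ p.1 ≠ p.2 ∧ D p.1 κ = D p.2 κ}
  have hclosed : ∀ o, IsClosed (f o) := by
    intro o
    match o with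
    | none => exact isOpen_Ioo.isClosed_compl
    | some p =>
      by_cases hp : p.1 = p.2
      · have : f (some p) = ∅ := by
          ext κ
          simp [f, hp]
        rw [this]
        exact isClosed_empty
      · have h1 : f (some p) = Set.Icc (κ₀ - ρ) (κ₀ + ρ) ∩
            (fun κ => D p.1 κ - D p.2 κ) ⁻¹' {0} := by
          ext κ
          simp only [f, Set.mem_ofPred_eq, Set.mem_inter_iff, Set.mem_preimage,
            Set.mem_singleton_iff, sub_eq_zero]
          constructor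
          · rintro ⟨a1, -, a3⟩
            exact ⟨a1, a3⟩
          · rintro ⟨a1, a3⟩
            exact ⟨a1, hp, a3⟩
        rw [h1]
        exact ContinuousOn.preimage_isClosed_of_isClosed
          ((hcont _ p.1.2).sub (hcont _ p.2.2)) isClosed_Icc isClosed_singleton
  have hZc : IsClosed (⋃ p : C × C, f (some p)) := isClosed_iUnion_of_finite fun p => hclosed (some p)
  have hcovK : ∀ κ ∈ K, κ ∈ J → κ ∈ ⋃ p : C × C, f (some p) := by
    intro κ hκ hJ
    have g0 : |κ - κ₀| < η := by rw [abs_lt]; constructor <;> linarith [hJ.1, hJ.2]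
    have g1 : |κ - κ₀| < ε := by rw [abs_lt]; constructor <;> linarith [hJ.1, hJ.2]
    have h1 := hneg κ hκ g1
    unfold NoTie at h1
    push Not at h1
    obtain ⟨x, y, hx, hy, hxy, hlt, hne⟩ := h1
    obtain ⟨c, hc, hxc⟩ := (hloc κ g0).2 x hx hlt
    obtain ⟨c', hc', hyc⟩ := (hloc κ g0).2 y hy (hxy ▸ hlt)
    have e1 : x = X c κ := (hX c κ g0 hc).2.2.2.2 x hxc.le hx
    have e2 : y = X c' κ := (hX c' κ g0 hc').2.2.2.2 y hyc.le hy
    rw [Set.mem_iUnion]
    refine ⟨(⟨c, hc⟩, ⟨c', hc'⟩), Set.Ioo_subset_Icc_self hJ, ?_, ?_⟩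
    · intro h
      have h' : c = c' := congrArg Subtype.val h
      apply hne
      rw [e1, e2, h']
    · show (FP A κ).eval (X c κ) = (FP A κ).eval (X c' κ)
      rw [← e1, ← e2, hxy]
  have hcovJ : ∀ κ ∈ J, κ ∈ ⋃ p : C × C, f (some p) := by
    intro κ hκ
    have h1 : κ ∈ closure (⋃ p : C × C, f (some p)) := by
      rw [Metric.mem_closure_iff]
      intro r hr
      obtain ⟨t, ht0, ht1, ht2⟩ : ∃ t, 0 < t ∧ t ≤ r ∧ t ≤ κ₀ + ρ - κ :=
        ⟨min r (κ₀ + ρ - κ), lt_min hr (by linarith [hκ.2]), min_le_left _ _, min_le_right _ _⟩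
      obtain ⟨κ', hκ', l1, l2⟩ := hdense κ (κ + t) (by linarith [hκ.1]) (by linarith)
        (by linarith)
      refine ⟨κ', hcovK κ' hκ' ⟨by linarith [hκ.1], by linarith⟩, ?_⟩
      rw [Real.dist_eq, abs_sub_comm, abs_of_pos (by linarith)]
      linarith
    rwa [hZc.closure_eq] at h1
  have hU : ⋃ o, f o = Set.univ := by
    ext κ
    simp only [Set.mem_iUnion, Set.mem_univ, iff_true]
    by_cases h : κ ∈ J
    · have := hcovJ κ h
      rw [Set.mem_iUnion] at this
      obtain ⟨p, hp⟩ := this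
      exact ⟨some p, hp⟩
    · exact ⟨none, h⟩
  have hd := dense_iUnion_interior_of_closed hclosed hU
  obtain ⟨κ₁, h1, h2⟩ := hd.inter_open_nonempty J isOpen_Ioo ⟨κ₀, by
    constructor <;> linarith⟩
  rw [Set.mem_iUnion] at h2
  obtain ⟨o, ho⟩ := h2
  match o, ho with
  | none, ho => exact (interior_subset ho) h1
  | some p, ho =>
    have hopen : IsOpen (J ∩ interior (f (some p))) := isOpen_Ioo.inter isOpen_interior
    obtain ⟨r, hr, hball⟩ := Metric.isOpen_iff.1 hopen κ₁ ⟨h1, ho⟩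
    obtain ⟨⟨c, hc⟩, ⟨c', hc'⟩⟩ := p
    have hin : ∀ κ, κ₁ - r < κ → κ < κ₁ + r → |κ - κ₀| < η ∧ c ≠ c' ∧ D c κ = D c' κ := by
      intro κ k1 k2
      have h3 : κ ∈ Metric.ball κ₁ r := by
        rw [Metric.mem_ball, Real.dist_eq, abs_lt]
        constructor <;> linarith
      obtain ⟨h4, h5⟩ := hball h3
      obtain ⟨-, h6, h7⟩ := interior_subset h5
      refine ⟨?_, fun h => h6 (Subtype.ext h), h7⟩
      rw [abs_lt]
      constructor <;> linarith [h4.1, h4.2]
    have hmon : ∀ (i j : ℝ), i ∈ C → j ∈ C → ∀ x y, κ₁ - r < x → x < y → y < κ₁ + r →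
        D i x = D j x → D i y = D j y → A.eval (X i x) ≤ A.eval (X j y) := by
      intro i j hi hj x y q1 q2 q3 q4 q5
      have g1 := (hin x q1 (q2.trans q3)).1
      have g2 := (hin y (q1.trans q2) q3).1
      have k1 := key i hi x y g1 g2
      have k2 := key j hj y x g2 g1
      have k3 : (y - x) * A.eval (X i x) ≤ (y - x) * A.eval (X j y) := by
        linarith
      exact le_of_mul_le_mul_left k3 (by linarith)
    have hinf := hM (κ₁ - r) (κ₁ + r) (fun κ => A.eval (X c κ)) (fun κ => A.eval (X c' κ))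
      (by linarith) (by
        intro x y q1 q2 q3
        have e1 := (hin x q1 (q2.trans q3)).2.2
        have e2 := (hin y (q1.trans q2) q3).2.2
        exact ⟨hmon c c hc hc x y q1 q2 q3 rfl rfl, hmon c' c' hc' hc' x y q1 q2 q3 rfl rfl,
          hmon c c' hc hc' x y q1 q2 q3 e1 e2, hmon c' c hc' hc x y q1 q2 q3 e1.symm e2.symm⟩)
    apply hinf
    refine hA A c1 c2 c3 c4 _ (X c) (X c') ?_
    rintro κ ⟨q1, q2, q3⟩
    obtain ⟨g, hcc, hD⟩ := hin κ q1 q2
    have u := hX c κ g hc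
    have u' := hX c' κ g hc'
    have hne0 : A.eval (X c κ) ≠ 0 := by
      intro h0
      have := u.2.2.1
      rw [evFP, h0, zero_mul] at this
      exact lt_irrefl _ this
    refine ⟨?_, q3, hne0, ?_, u.2.1, u'.2.1⟩
    · intro h
      have s1 := hsep c hc c' hc' hcc
      have s2 := abs_lt.1 u.1
      have s3 := abs_lt.1 u'.1
      rw [h] at s2
      rcases abs_cases (c - c') with ⟨h8, -⟩ | ⟨h8, -⟩ <;> rw [h8] at s1 <;> linarith
    · have h8 : (FP A κ).eval (X c κ) = (FP A κ).eval (X c' κ) := hD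
      rw [evFP, evFP, ← q3] at h8
      have h9 := mul_left_cancel₀ hne0 h8
      linarith

end Run7.h241.CS
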