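import Mathlib

/-!
# MP_176ace_nt: all signatures with excess six. Interface

`W = (X ^ 3 - 7 X) ^ 2`, `FP A κ = A (W - κ)`. The number field of the start results is given by
`L A(θ) + s ^ m = 0`; its number of real places is the number of the real solutions of `A = - v`.
For a polynomial with `n` different real roots and different negative critical values all numbers of
the right parity occur (CNT). The rest shows that for a fixed `A` and for suitable rational `k`
(`W - k ^ 2` with six rational roots) all negative critical values of `A (W - k ^ 2)` are different.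
-/

set_option autoImplicit false

namespace Run7.h241.CS

open Polynomial

/-- the monic polynomial with the simple roots `R` -/
noncomputable def PR (R : Finset ℝ) : ℝ[X] := ∏ s ∈ R, (X - C s)

/-- `A ((X ^ 3 - 7 X) ^ 2 - κ)` -/
noncomputable def FP (A : ℝ[X]) (κ : ℝ) : ℝ[X] := A * ((X ^ 3 - C 7 * X) ^ 2 - C κ)

/-- different critical points do not have the same negative value -/
def NoTie (f : ℝ[X]) : Prop :=
  ∀ x y : ℝ, (derivative f).eval x = 0 → (derivative f).eval y = 0 → f.eval x = f.eval y →
    f.eval x < 0 → x = y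

/-- **CNT1** (60-120 lines). `d` gives a positive depth to each of the `M` elements of `ι`, all
different. For `j ≤ M` there is an interval of `v` for which exactly `j` of the depths are larger
than `v` (and none equal to `v`).
Proof: sort the depths (`Finset.orderEmbOfFin` of the image) `e 0 < … < e (M - 1)`; take
`v₁ = e (M - j - 1)` (half of `e 0` if `j = M`; `1` if `M = 0`), `v₂ = e (M - j)` (`v₁ + 1` if
`j = 0`). Or by induction on `j` or on the finset (remove the largest element). -/
def S_CNT1 : Prop :=
  ∀ (ι : Type) [Fintype ι] (d : ι → ℝ), (∀ i, 0 < d i) → Function.Injective d →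
    ∀ j : ℕ, j ≤ Fintype.card ι → ∃ v₁ v₂ : ℝ, 0 < v₁ ∧ v₁ < v₂ ∧ ∀ v, v₁ < v → v < v₂ →
      (∀ i, d i ≠ v) ∧ {i | v < d i}.ncard = j

/-- **CNT2** (120-200 lines). The roots are `a 0 < a 1 < … < a (n - 1)`, `f = ∏ (X - a i)`. The
negative gaps are the `(a i, a (i + 1))` with `n - i` even (`i + 1 < n`). There are depths `d i > 0`,
one for each such `i`, which are minus the value at a critical point in the gap, such that for all
`v > 0` different from all the depths the number of the real solutions of `f = - v` is
`n % 2 + 2 * (number of the negative gaps with d i > v)`.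
Proof: all in the starting file `Pool/Agent/R713/AS/Gap.lean` (imports only Mathlib): `gap` (exactly
two solutions in a gap with a point `m` of value `< - v`), `left` (one solution to the left of all
roots; there `(PP a).eval (l - 1) < - v` is assumed: use a far point instead, as in `left'` of
`Pool/Agent/N855/SG/Cert.lean`), `ncard_pieces` (counting by pieces), `crit`, `rolle`, and `sign` in
`Pool/Agent/N855/SG/Cert.lean` (the sign of the product). The file `Cert.lean` has the same count
for integral roots: theorem `count`. The depth is minus the minimum of `f` over the closed gap; it is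
attained at an interior point, where the derivative vanishes. A gap with `d i < v` has no solution,
a gap with `d i > v` has two, a positive gap has none, `(a (n-1), ∞)` has none, and `(-∞, a 0)` has
one if `n` is odd and none if `n` is even. -/
def S_CNT2 : Prop :=
  ∀ (n : ℕ) (a : Fin n → ℝ), 1 ≤ n → StrictMono a →
    ∃ d : {i : Fin n // (i : ℕ) + 1 < n ∧ Even (n - (i : ℕ))} → ℝ, (∀ i, 0 < d i) ∧
      (∀ i, ∃ x : ℝ, a i.1 < x ∧ (∀ h : (i.1 : ℕ) + 1 < n, x < a ⟨(i.1 : ℕ) + 1, h⟩) ∧
        (derivative (∏ l, (X - C (a l)))).eval x = 0 ∧ (∏ l, (X - C (a l))).eval x = - d i) ∧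
      ∀ v : ℝ, 0 < v → (∀ i, d i ≠ v) →
        {x : ℝ | (∏ l, (X - C (a l))).eval x = - v}.ncard = n % 2 + 2 * {i | v < d i}.ncard

/-- **CNT** (40-80 lines) from CNT1 and CNT2: for a polynomial with `n` different real roots and
different negative critical values every number `r₁ ≤ n` of the parity of `n` is the number of the
real solutions of `f = - v` for all `v` in some interval.
Proof: enumerate `R` increasingly (`R.orderEmbOfFin rfl`). In CNT2 the critical points of different
gaps are different, so by `NoTie` the depths are different: `d` is injective. The number of the `i`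
with `i + 1 < n` and `n - i` even is `n / 2`. Take `j = n / 2 - r₂` in CNT1. -/
def S_CNT : Prop :=
  ∀ R : Finset ℝ, 1 ≤ R.card → NoTie (PR R) → ∀ r₁ r₂ : ℕ, r₁ + 2 * r₂ = R.card →
    ∃ v₁ v₂ : ℝ, 0 < v₁ ∧ v₁ < v₂ ∧ ∀ v, v₁ < v → v < v₂ →
      {x : ℝ | (PR R).eval x = - v}.ncard = r₁

/-- **CRT** (60-120 lines). The derivative of a polynomial with `n ≥ 1` different real roots has
exactly `n - 1` different real zeros, the derivative changes its sign at each of them (it is negative
on one side and positive on the other side, near the zero), and the polynomial does not vanish there.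
Proof: `Polynomial.card_roots_le_derivative` or Rolle gives `n - 1` zeros; the degree is `n - 1`, so
`f' = n ∏ (X - c)` over these zeros `Z`, all simple. For `c ∈ Z` the product of the other factors has
constant sign near `c`. If `f c = 0 = f' c` then `c` would be a double root of `f`. -/
def S_CRT : Prop :=
  ∀ R : Finset ℝ, 1 ≤ R.card → ∃ Z : Finset ℝ, Z.card + 1 = R.card ∧
    (∀ x, (derivative (PR R)).eval x = 0 ↔ x ∈ Z) ∧ (∀ c ∈ Z, (PR R).eval c ≠ 0) ∧
    ∃ δ₀ : ℝ, 0 < δ₀ ∧ ∀ c ∈ Z, ∀ t : ℝ, 0 < t → t ≤ δ₀ →
      (derivative (PR R)).eval (c - t) * (derivative (PR R)).eval (c + t) < 0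

/-- **LOC** (150-220 lines) from CRT. Let `A (W - κ₀)` have `n` different real roots (all its roots
real and simple). There are finitely many windows `[c - δ, c + δ]`, pairwise disjoint, such that for
all `κ` near `κ₀` each window contains exactly one critical point of `f = A (W - κ)`; it is interior,
it is the minimum of `f` over the window, with a negative value; and every critical point of `f` with
a negative value is in one of the windows.
Proof: let `Z` be the `n - 1` critical points of `f₀ = A (W - κ₀)` (CRT), `C = {c ∈ Z | f₀ c < 0}`.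
Choose `δ` so small that the windows of all `c ∈ Z` are disjoint (`2 δ < |c - c'|`), `δ ≤ δ₀` of CRT,
`f₀ < 0` on the windows of `c ∈ C` and `f₀ > 0` on the windows of `c ∈ Z \ C`. For `κ` near `κ₀` the
derivative of `f` has opposite signs at `c - δ` and `c + δ` (both depend affinely on `κ`), so it has
a zero in each open window (intermediate values); these are `n - 1` different zeros, and the degree of
the derivative is at most `n - 1` (`FP A κ` has degree `n`: monic as `A` is; or: its `natDegree` is
the one of `FP A κ₀`), so there are no others (finset of roots, cardinality). On the windows of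
`Z \ C` still `f > 0` (`|f - f₀| ≤ |κ - κ₀| max |A|` on a compact set). On the windows of `C` still
`f < 0`. For `c ∈ C`: `f₀' < 0` left of `c` and `> 0` right of `c` in the window or the other way
round; the second is impossible: then `c` would be a local maximum of `f₀` with `f₀ c < 0`; use
Rolle-type counting: or simply avoid this by the following. `f₀` has exactly one critical point in the
gap of `R` which contains `c`, and the minimum of `f₀` over the closed gap (on whose ends `f₀ = 0`) is
attained at an interior critical point, hence at `c`. (If `c` were left or right of all roots of `R`,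
then `crit`/`eval_der` of `Pool/Agent/R713/AS/Gap.lean`: `f₀'/f₀ = ∑ 1 / (x - a)` has constant sign
there, no critical point.) So `f₀ c < f₀ (c ± δ)` (uniqueness of the critical point), which persists
for `κ` near `κ₀`: `f c < f (c ± δ)`; hence the minimum of `f` over the window is interior and
critical: it is the only critical point in the window. -/
def S_LOC : Prop :=
  ∀ (A : ℝ[X]) (κ₀ : ℝ) (R : Finset ℝ), 1 ≤ R.card → FP A κ₀ = PR R →
    ∃ (C : Finset ℝ) (δ η : ℝ), 0 < δ ∧ 0 < η ∧
      (∀ c ∈ C, ∀ c' ∈ C, c ≠ c' → 2 * δ < |c - c'|) ∧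
      ∀ κ : ℝ, |κ - κ₀| < η →
        (∀ c ∈ C, ∃ x : ℝ, |x - c| < δ ∧ (derivative (FP A κ)).eval x = 0 ∧
          (FP A κ).eval x < 0 ∧ (∀ y : ℝ, |y - c| ≤ δ → (FP A κ).eval x ≤ (FP A κ).eval y) ∧
          ∀ y : ℝ, |y - c| ≤ δ → (derivative (FP A κ)).eval y = 0 → y = x) ∧
        ∀ x : ℝ, (derivative (FP A κ)).eval x = 0 → (FP A κ).eval x < 0 → ∃ c ∈ C, |x - c| < δ

/-- **MON** (40-80 lines). Two functions on an interval which interlace monotonically agree at
infinitely many points. Proof: both are monotone on `Ioo a b` (hypotheses 3 and 4); the set of the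
points where `φ` is not continuous is countable (`MonotoneOn.countable_not_continuousWithinAt` or
similar), so infinitely (uncountably) many `x ∈ Ioo a b` are continuity points; at such a point
`φ y ≤ ψ x` for `y < x` and `ψ x ≤ φ y` for `y > x` give `φ x ≤ ψ x ≤ φ x`. -/
def S_MON : Prop :=
  ∀ (a b : ℝ) (φ ψ : ℝ → ℝ), a < b →
    (∀ x y, a < x → x < y → y < b → φ x ≤ φ y ∧ ψ x ≤ ψ y ∧ φ x ≤ ψ y ∧ ψ x ≤ φ y) →
    {x | a < x ∧ x < b ∧ φ x = ψ x}.Infinite

/-- **CON** (60-120 lines). `A (x) = A (y)` cannot hold for infinitely many real points of the conic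
`x ^ 2 + x y + y ^ 2 = 7` or of `x ^ 2 - x y + y ^ 2 = 7`, unless it holds at `(0, √7)`.
Proof: the points of the conic are `x = 2 √(7/3) cos t`, `y = 2 √(7/3) cos (t + 2 π / 3)`,
`t ∈ [0, 2 π]` (from `x` get `t`, `y` is one of the two solutions, replace `t` by `-t`); the function
`A (x t) - A (ε y t)`, `ε = ± 1`, is analytic on `ℝ` with infinitely many zeros in a compact
interval, so it vanishes identically (`Set.Infinite.exists_accPt_of_subset_isCompact`,
`AnalyticOnNhd.eqOn_zero_of_preconnected_of_frequently_eq_zero`); at a `t` with `cos t = 0` one has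
`x = 0` and `y = ± √7`; as `-t` is allowed too, both signs occur. Or with the rational
parametrisation `x = (2 + 6 u + u ^ 2) / (1 + u + u ^ 2)`, `y = (1 - 4 u - 3 u ^ 2) / (1 + u + u ^ 2)`
and polynomials in `u` (infinitely many zeros). -/
def S_CON : Prop :=
  ∀ (A : ℝ[X]) (ε : ℝ), (ε = 1 ∨ ε = -1) →
    {p : ℝ × ℝ | p.1 ^ 2 + ε * (p.1 * p.2) + p.2 ^ 2 = 7 ∧ A.eval p.1 = A.eval p.2}.Infinite →
    A.eval 0 = A.eval (Real.sqrt 7) ∨ A.eval 0 = A.eval (- Real.sqrt 7)

/-- **ALG** (100-160 lines) from CON. `A` with different values at `√7`, `-√7`, `0` and different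
values at `√(7/3)`, `-√(7/3)`. There is no infinite set of `κ` with two different critical points
`x κ`, `y κ` of `A (W - κ)` with `A x = A y ≠ 0` and `W x = W y`.
Proof: the critical equation is `A'(x) (W(x) - κ) + A(x) W'(x) = 0`. (1) If two different `κ` have
the same pair `(x, y)` then `A'(x) = 0`, hence `W'(x) = 0`, and the same for `y`; `W' = 2 T T'`,
`T = x ^ 3 - 7 x`, so `x, y ∈ {0, √7, -√7, √(7/3), -√(7/3)}`, and `W x = W y` (the values are `0`
resp. `1372 / 27`) puts both into `{0, ± √7}` or both into `{± √(7/3)}`: contradiction with the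
hypothesis, as `A x = A y`. (2) Otherwise the pairs are pairwise different: infinitely many pairs
with `x ≠ y`, `W x = W y`, i.e. `T x = ± T y`: `(x + y) (x ^ 2 + x y + y ^ 2 - 7) = 0 ∨ ...`:
`y = - x`, or `x ^ 2 + x y + y ^ 2 = 7`, or `x ^ 2 - x y + y ^ 2 = 7` (as `T x - T y =
(x - y) (x ^ 2 + x y + y ^ 2 - 7)`, `T x + T y = (x + y) (x ^ 2 - x y + y ^ 2 - 7)`); one of the
three holds infinitely often. `y = - x`: the polynomial `A - A(-X)` has infinitely many zeros, so it
is zero, `A(√7) = A(-√7)`. The other two: CON. -/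
def S_ALG : Prop :=
  ∀ A : ℝ[X], A.eval (Real.sqrt 7) ≠ A.eval (- Real.sqrt 7) → A.eval 0 ≠ A.eval (Real.sqrt 7) →
    A.eval 0 ≠ A.eval (- Real.sqrt 7) →
    A.eval (Real.sqrt (7 / 3)) ≠ A.eval (- Real.sqrt (7 / 3)) →
    ∀ (K : Set ℝ) (x y : ℝ → ℝ), (∀ κ ∈ K, x κ ≠ y κ ∧ A.eval (x κ) = A.eval (y κ) ∧
      A.eval (x κ) ≠ 0 ∧ ((x κ) ^ 3 - 7 * x κ) ^ 2 = ((y κ) ^ 3 - 7 * y κ) ^ 2 ∧
      (derivative (FP A κ)).eval (x κ) = 0 ∧ (derivative (FP A κ)).eval (y κ) = 0) → K.Finite

/-- **TIE** (120-200 lines) from LOC, MON, ALG. Let `A (W - κ₀)` have only simple real roots, `A` as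
in ALG, and let `K` be a set which meets every nonempty open interval inside `(κ₀ - ε, κ₀ + ε)`. Then
for some `κ ∈ K` with `|κ - κ₀| < ε` different critical points of `A (W - κ)` have different negative
values.
Proof: take `C, δ, η` of LOC, `η ≤ ε`. For `κ` near `κ₀` and `c ∈ C` let `X c κ` be the point of LOC
and `D c κ = FP A κ (X c κ)`, the minimum over the window. For `κ, κ'` near `κ₀`:
`D c κ' ≤ FP A κ' (X c κ) = D c κ - (κ' - κ) A (X c κ)` (*), as `FP A κ' = FP A κ - (κ' - κ) A`. So
`D c` is continuous in `κ` (`A` is bounded on the window; Lipschitz). If every `κ ∈ K` near `κ₀` had a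
tie, then (by the last clause of LOC and the uniqueness in the window) `D c κ = D c' κ` for some
`c ≠ c'` in `C`. The sets `{κ | |κ - κ₀| ≤ η / 2, D c κ = D c' κ}` are closed, finitely many, and
their union contains a dense subset of the interval, so it is the interval; hence one of them
contains an interval `(a, b)`, `a < b` (finite union of closed sets with empty interior has empty
interior, or Baire). There (*) for `c, c'` gives, for `κ < κ'`:
`A (X c κ) ≤ (D κ - D κ') / (κ' - κ) ≤ A (X c' κ')` and the same with `c, c'` exchanged or equal: so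
MON applies to `φ = A (X c ·)`, `ψ = A (X c' ·)`. At the infinitely many `κ` with `φ κ = ψ κ`:
`A (x) = A (y) ≠ 0` (the value of `FP` is negative), `FP A κ x = FP A κ y` so `W x = W y`, `x ≠ y`
(disjoint windows). This contradicts ALG. -/
def S_TIE : Prop :=
  ∀ (A : ℝ[X]) (κ₀ ε : ℝ) (R : Finset ℝ) (K : Set ℝ), 0 < ε → 1 ≤ R.card → FP A κ₀ = PR R →
    A.eval (Real.sqrt 7) ≠ A.eval (- Real.sqrt 7) → A.eval 0 ≠ A.eval (Real.sqrt 7) →
    A.eval 0 ≠ A.eval (- Real.sqrt 7) →
    A.eval (Real.sqrt (7 / 3)) ≠ A.eval (- Real.sqrt (7 / 3)) →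
    (∀ a b : ℝ, κ₀ - ε < a → a < b → b < κ₀ + ε → ∃ κ ∈ K, a < κ ∧ κ < b) →
    ∃ κ ∈ K, |κ - κ₀| < ε ∧ NoTie (FP A κ)

/-- **RAT** (80-150 lines). Blocks of six rational numbers with `k ^ 2` in a prescribed interval.
Proof: modify `par7` and `block6` of the starting file `Pool/Agent/TH665/CG6/Chain.lean` (there
`x = (2 + 6 u + u ^ 2) / (1 + u + u ^ 2)`, `y = (1 - 4 u - 3 u ^ 2) / (1 + u + u ^ 2)`, `z = x + y`,
`k = x y z`, rational `u` in `(0, 1/8)`): `k (u)` is continuous, `k (0) = 6`, `k (1/8) < 3`; so for
`9 ≤ a < b ≤ 36` there is a real `u₀ ∈ (0, 1/8)` with `k (u₀) ^ 2 = (a + b) / 2` and an open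
interval of `u` around it with `a < k ^ 2 < b`; all but finitely many rational `u` in it avoid `F`
and `G` (each value is taken by finitely many `u`: nonzero polynomials in `u`; or shrink the
interval). The six numbers `± x, ± y, ± z` are different since `0 < y < x < z`. -/
def S_RAT : Prop :=
  ∀ (F G : Finset ℚ) (a b : ℚ), 9 ≤ a → a < b → b ≤ 36 →
    ∃ (B : Finset ℚ) (k : ℚ), B.card = 6 ∧ Disjoint F B ∧ 0 < k ∧ a < k ^ 2 ∧ k ^ 2 < b ∧
      k ^ 2 ∉ G ∧ ∏ s ∈ B, (X - C s : ℚ[X]) = (X ^ 3 - C 7 * X) ^ 2 - C (k ^ 2)

end Run7.h241.CS
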