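import Pool.Agent.TH665.CG6.Grow
import Pool.Agent.Run7.h241.CS.Iface

/-!
# The condition on the values at `± √7` and `± √(7/3)`
-/

set_option autoImplicit false

namespace Run7.h241.CS

open Polynomial Pool.Agent.W289.CG Pool.Agent.W460.CG Pool.Agent.TH665.CG6

/-- the product of the `x - s` -/
noncomputable def ev (S : Finset ℚ) (x : ℝ) : ℝ := ∏ s ∈ S, (x - (s : ℝ))

/-- the values at `± √7` and at `± √(7/3)` are irrational -/
def CC (S : Finset ℚ) : Prop :=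
  ∃ p q p' q' : ℚ, q ≠ 0 ∧ q' ≠ 0 ∧ (∀ r : ℝ, r ^ 2 = 7 → ev S r = p + q * r) ∧
    ∀ r : ℝ, r ^ 2 = 7 / 3 → ev S r = p' + q' * r

/-- the product of the `p.2 √d - c p.1` -/
def ir (d c : ℤ) : List (ℤ × ℤ) → ℤ × ℤ
  | [] => (1, 0)
  | p :: l => (-c * p.1 * (ir d c l).1 + p.2 * d * (ir d c l).2,
      p.2 * (ir d c l).1 - c * p.1 * (ir d c l).2)

lemma ir_spec (d c : ℤ) (r : ℝ) (hr : ((c : ℝ) * r) ^ 2 = d) (l : List (ℤ × ℤ))
    (h : ∀ p ∈ l, 0 < p.2) :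
    (l.map fun p => r - ((p.1 : ℝ) / p.2)).prod * ((c : ℝ) ^ l.length * dn l) =
      (ir d c l).1 + (ir d c l).2 * (c * r) := by
  induction l with
  | nil => simp [ir, dn]
  | cons p l ih =>
    have h1 : (0 : ℝ) < p.2 := by exact_mod_cast h p List.mem_cons_self
    have ih' := ih fun q hq => h q (List.mem_cons_of_mem _ hq)
    rw [List.map_cons, List.prod_cons, List.length_cons, dn_cons, pow_succ]
    have e1 : (r - (p.1 : ℝ) / p.2) * (c * p.2) = c * r * p.2 - c * p.1 := by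
      field_simp
    have e2 : (r - (p.1 : ℝ) / p.2) * (l.map fun p => r - ((p.1 : ℝ) / p.2)).prod *
        ((c : ℝ) ^ l.length * c * ((p.2 * dn l : ℤ) : ℝ)) =
        ((r - (p.1 : ℝ) / p.2) * (c * p.2)) *
        ((l.map fun p => r - ((p.1 : ℝ) / p.2)).prod * ((c : ℝ) ^ l.length * dn l)) := by
      push_cast
      ring
    rw [e2, e1, ih']
    simp only [ir]
    push_cast
    linear_combination (p.2 : ℝ) * (ir d c l).2 * hr

lemma ev_list (l : List (ℤ × ℤ)) (hok : okL l) (x : ℝ) :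
    ev (l.map fr).toFinset x = (l.map fun p => x - ((p.1 : ℝ) / p.2)).prod := by
  unfold ev
  rw [List.prod_toFinset _ hok.nodup, List.map_map]
  congr 1
  apply List.map_congr_left
  intro p _
  simp [fr]

lemma cc_list (l : List (ℤ × ℤ)) (hok : okL l) (h1 : (ir 7 1 l).2 ≠ 0)
    (h2 : (ir 21 3 l).2 ≠ 0) : CC (l.map fr).toFinset := by
  have hd := dn_pos l hok.1
  have hdR : (dn l : ℝ) ≠ 0 := by exact_mod_cast hd.ne'
  have hdQ : (dn l : ℚ) ≠ 0 := by exact_mod_cast hd.ne'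
  have h1Q : ((ir 7 1 l).2 : ℚ) ≠ 0 := by exact_mod_cast h1
  have h2Q : ((ir 21 3 l).2 : ℚ) ≠ 0 := by exact_mod_cast h2
  refine ⟨(ir 7 1 l).1 / dn l, (ir 7 1 l).2 / dn l, (ir 21 3 l).1 / (3 ^ l.length * dn l),
    (ir 21 3 l).2 * 3 / (3 ^ l.length * dn l), div_ne_zero h1Q hdQ,
    div_ne_zero (mul_ne_zero h2Q (by norm_num)) (mul_ne_zero (by positivity) hdQ), ?_, ?_⟩
  · intro r hr
    have h := ir_spec 7 1 r (by push_cast; rw [one_mul, hr]) l hok.1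
    rw [ev_list l hok]
    push_cast at h ⊢
    rw [one_pow, one_mul, one_mul] at h
    field_simp
    linarith
  · intro r hr
    have h := ir_spec 21 3 r (by push_cast; rw [mul_pow, hr]; norm_num) l hok.1
    rw [ev_list l hok]
    push_cast at h ⊢
    have h3 : (3 : ℝ) ^ l.length ≠ 0 := by positivity
    field_simp
    linarith

lemma ev_union {S B : Finset ℚ} (h : Disjoint S B) (x : ℝ) : ev (S ∪ B) x = ev S x * ev B x := by
  classical
  unfold ev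
  rw [Finset.prod_union h]

lemma ev_PS (S : Finset ℚ) (x : ℝ) : ev S x = ((PS S).map (algebraMap ℚ ℝ)).eval x := by
  unfold ev PS
  rw [Polynomial.map_prod, eval_prod]
  refine Finset.prod_congr rfl fun s _ => ?_
  simp

lemma ev_block {B : Finset ℚ} {k : ℚ} (h : PS B = (X ^ 3 - C 7 * X) ^ 2 - C (k ^ 2)) (x : ℝ) :
    ev B x = (x ^ 3 - 7 * x) ^ 2 - (k : ℝ) ^ 2 := by
  rw [ev_PS, h]
  simp

lemma CC.block {S B : Finset ℚ} {k : ℚ} (hS : CC S) (hd : Disjoint S B)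
    (h : PS B = (X ^ 3 - C 7 * X) ^ 2 - C (k ^ 2)) (hk : 0 < k) (hk' : k < 6) : CC (S ∪ B) := by
  obtain ⟨p, q, p', q', hq, hq', h1, h2⟩ := hS
  have hk2 : k ^ 2 ≠ 0 := by positivity
  have hk3 : 1372 / 27 - k ^ 2 ≠ 0 := by nlinarith
  refine ⟨-k ^ 2 * p, -k ^ 2 * q, (1372 / 27 - k ^ 2) * p', (1372 / 27 - k ^ 2) * q',
    mul_ne_zero (neg_ne_zero.2 hk2) hq, mul_ne_zero hk3 hq', fun r hr => ?_, fun r hr => ?_⟩
  · rw [ev_union hd, h1 r hr, ev_block h]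
    have e : (r ^ 3 - 7 * r) = 0 := by
      have : r ^ 3 - 7 * r = r * (r ^ 2 - 7) := by ring
      rw [this, hr]; ring
    rw [e]
    push_cast
    ring
  · rw [ev_union hd, h2 r hr, ev_block h]
    have e : (r ^ 3 - 7 * r) ^ 2 = 1372 / 27 := by
      have : (r ^ 3 - 7 * r) ^ 2 = r ^ 2 * (r ^ 2 - 7) ^ 2 := by ring
      rw [this, hr]; norm_num
    rw [e]
    push_cast
    ring

/-- the conditions of `S_ALG` -/
lemma CC.conds {S : Finset ℚ} (h : CC S) :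
    ev S (Real.sqrt 7) ≠ ev S (- Real.sqrt 7) ∧ ev S 0 ≠ ev S (Real.sqrt 7) ∧
      ev S 0 ≠ ev S (- Real.sqrt 7) ∧
      ev S (Real.sqrt (7 / 3)) ≠ ev S (- Real.sqrt (7 / 3)) := by
  obtain ⟨p, q, p', q', hq, hq', h1, h2⟩ := h
  have hs7 : (Real.sqrt 7) ^ 2 = 7 := Real.sq_sqrt (by norm_num)
  have hs7' : (- Real.sqrt 7) ^ 2 = 7 := by rw [neg_sq, hs7]
  have hs3 : (Real.sqrt (7 / 3)) ^ 2 = 7 / 3 := Real.sq_sqrt (by norm_num)
  have hs3' : (- Real.sqrt (7 / 3)) ^ 2 = 7 / 3 := by rw [neg_sq, hs3]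
  have hp7 : 0 < Real.sqrt 7 := Real.sqrt_pos.2 (by norm_num)
  have hp3 : 0 < Real.sqrt (7 / 3) := Real.sqrt_pos.2 (by norm_num)
  have hqR : (q : ℝ) ≠ 0 := by exact_mod_cast hq
  have hqR' : (q' : ℝ) ≠ 0 := by exact_mod_cast hq'
  have hirr : Irrational (Real.sqrt 7) := by
    have := Nat.Prime.irrational_sqrt (show Nat.Prime 7 by norm_num)
    exact_mod_cast this
  have hev0 : ev S 0 = ((∏ s ∈ S, (0 - s) : ℚ) : ℝ) := by
    unfold ev
    push_cast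
    rfl
  rw [h1 _ hs7, h1 _ hs7', h2 _ hs3, h2 _ hs3', hev0]
  refine ⟨fun h => ?_, fun h => ?_, fun h => ?_, fun h => ?_⟩
  · have : (q : ℝ) * Real.sqrt 7 = 0 := by linarith
    rcases mul_eq_zero.1 this with h3 | h3
    · exact hqR h3
    · exact hp7.ne' h3
  · apply hirr
    refine ⟨((∏ s ∈ S, (0 - s)) - p) / q, ?_⟩
    push_cast at h ⊢
    rw [div_eq_iff hqR]
    linarith
  · apply hirr
    refine ⟨(p - (∏ s ∈ S, (0 - s))) / q, ?_⟩
    push_cast at h ⊢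
    rw [div_eq_iff hqR]
    linarith
  · have : (q' : ℝ) * Real.sqrt (7 / 3) = 0 := by linarith
    rcases mul_eq_zero.1 this with h3 | h3
    · exact hqR' h3
    · exact hp3.ne' h3

end Run7.h241.CS
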