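import Pool.Agent.Run7.h241.CS.CC

/-!
# The last block and the data
-/

set_option autoImplicit false

namespace Run7.h241.CS

open Polynomial Pool.Agent.W289.CG Pool.Agent.W460.CG Pool.Agent.TH665.CG6

lemma growCC (S : Finset ℚ) (v : ℚ) (hv : 0 < v) (h : Eq6 S v) (hs : ∃ s ∈ S, 3 < s) (hc : CC S)
    (m : ℕ) :
    ∃ (T : Finset ℚ) (w : ℚ), T.card = S.card + 6 * m ∧ 0 < w ∧ Eq6 T w ∧ (∃ s ∈ T, 3 < s) ∧
      CC T := by
  classical
  induction m with
  | zero => exact ⟨S, v, by simp, hv, h, hs, hc⟩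
  | succ m ih =>
    obtain ⟨T, w, h1, h2, h3, ⟨s, hs1, hs2⟩, h4⟩ := ih
    obtain ⟨B, k, k1, k2, k3, k4, -, k6⟩ := block6 T ∅
    refine ⟨T ∪ B, w * (36 - k ^ 2), ?_, ?_, h3.union k2 (eq6_block k6), ⟨s,
      Finset.mem_union_left _ hs1, hs2⟩, h4.block k2 k6 k3 k4⟩
    · rw [Finset.card_union_of_disjoint k2, h1, k1]
      ring
    · have : 0 < 36 - k ^ 2 := by nlinarith
      positivity

/-- the real points -/
noncomputable def re (T : Finset ℚ) : Finset ℝ := T.map ⟨fun s : ℚ => (s : ℝ), Rat.cast_injective⟩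

lemma re_card (T : Finset ℚ) : (re T).card = T.card := Finset.card_map _

lemma PR_re (T : Finset ℚ) : PR (re T) = (PS T).map (algebraMap ℚ ℝ) := by
  unfold PR re PS
  rw [Finset.prod_map, Polynomial.map_prod]
  refine Finset.prod_congr rfl fun s _ => ?_
  simp

lemma PR_ev (T : Finset ℚ) (x : ℝ) : (PR (re T)).eval x = ev T x := by
  rw [PR_re, ev_PS]

lemma FP_re {T B : Finset ℚ} {k : ℚ} (hd : Disjoint T B)
    (h : PS B = (X ^ 3 - C 7 * X) ^ 2 - C (k ^ 2)) :
    FP (PR (re T)) ((k : ℝ) ^ 2) = PR (re (T ∪ B)) := by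
  classical
  rw [PR_re, PR_re, PS_union hd, h, FP]
  simp

theorem last (hC : S_CNT) (hT : S_TIE) (hR : S_RAT) (S : Finset ℚ) (v : ℚ) (hv : 0 < v)
    (h : Eq6 S v) (hs : ∃ s ∈ S, 3 < s) (hc : CC S) (m : ℕ) :
    ∃ (T : Finset ℚ) (w : ℚ), T.card = S.card + 6 * (m + 1) ∧ 0 < w ∧ Eq6 T w ∧
      (∀ j, (derivative (PS T)).eval (x6 j) ≠ 0) ∧ (∃ s ∈ T, 3 < s) ∧
      ∀ r₁ r₂ : ℕ, r₁ + 2 * r₂ = T.card → ∃ v₁ v₂ : ℝ, 0 < v₁ ∧ v₁ < v₂ ∧
        ∀ v, v₁ < v → v < v₂ → {x : ℝ | ev T x = - v}.ncard = r₁ := by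
  classical
  obtain ⟨T, w, h1, h2, h3, ⟨s, hs1, hs2⟩, h4⟩ := growCC S v hv h hs hc m
  let G : Finset ℚ := Finset.univ.image fun j : Fin 6 =>
    36 + 2 * w * ((x6 j ^ 3 - 7 * x6 j) * (3 * x6 j ^ 2 - 7)) / (derivative (PS T)).eval (x6 j)
  obtain ⟨B₀, k₀, a1, a2, a3, a4, a5, -, a7⟩ := hR T ∅ 9 36 le_rfl (by norm_num) le_rfl
  have a4' : (9 : ℝ) < (k₀ : ℝ) ^ 2 := by exact_mod_cast a4
  have a5' : (k₀ : ℝ) ^ 2 < 36 := by exact_mod_cast a5
  obtain ⟨c1, c2, c3, c4⟩ := h4.conds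
  simp only [← PR_ev] at c1 c2 c3 c4
  let K : Set ℝ := {κ | ∃ (B : Finset ℚ) (k : ℚ), B.card = 6 ∧ Disjoint T B ∧ 0 < k ∧ k ^ 2 < 36 ∧
    k ^ 2 ∉ G ∧ PS B = (X ^ 3 - C 7 * X) ^ 2 - C (k ^ 2) ∧ κ = (k : ℝ) ^ 2}
  obtain ⟨κ, ⟨B, k, k1, k2, k3, k4, k5, k6, k7⟩, -, hno⟩ := hT (PR (re T)) ((k₀ : ℝ) ^ 2)
    (min ((k₀ : ℝ) ^ 2 - 9) (36 - (k₀ : ℝ) ^ 2)) (re (T ∪ B₀)) K
    (lt_min (by linarith) (by linarith))
    (by rw [re_card, Finset.card_union_of_disjoint a2, a1]; omega) (FP_re a2 a7) c1 c2 c3 c4 (by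
      intro a b ha hab hb
      have ha' : (9 : ℝ) < a := by
        have := min_le_left ((k₀ : ℝ) ^ 2 - 9) (36 - (k₀ : ℝ) ^ 2)
        linarith
      have hb' : b < 36 := by
        have := min_le_right ((k₀ : ℝ) ^ 2 - 9) (36 - (k₀ : ℝ) ^ 2)
        linarith
      obtain ⟨a', ha1, ha2⟩ := exists_rat_btwn hab
      obtain ⟨b', hb1, hb2⟩ := exists_rat_btwn ha2
      have e1 : (9 : ℚ) ≤ a' := by
        have : (9 : ℝ) < a' := ha'.trans ha1
        exact_mod_cast this.le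
      have e2 : a' < b' := by exact_mod_cast hb1
      have e3 : b' ≤ 36 := by
        have : (b' : ℝ) < 36 := hb2.trans hb'
        exact_mod_cast this.le
      obtain ⟨B, k, k1, k2, k3, k4, k5, k6, k7⟩ := hR T G a' b' e1 e2 e3
      refine ⟨(k : ℝ) ^ 2, ⟨B, k, k1, k2, k3, k5.trans_le e3, k6, k7, rfl⟩, ?_, ?_⟩
      · have : (a' : ℝ) < (k : ℝ) ^ 2 := by exact_mod_cast k4
        linarith
      · have : (k : ℝ) ^ 2 < (b' : ℝ) := by exact_mod_cast k5
        linarith)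
  have hk : k < 6 := by nlinarith
  have hcard : (T ∪ B).card = S.card + 6 * (m + 1) := by
    rw [Finset.card_union_of_disjoint k2, h1, k1]
    ring
  refine ⟨T ∪ B, w * (36 - k ^ 2), hcard, ?_, h3.union k2 (eq6_block k6), ?_,
    ⟨s, Finset.mem_union_left _ hs1, hs2⟩, ?_⟩
  · have : 0 < 36 - k ^ 2 := by linarith
    positivity
  · intro j h0
    have hB : (derivative (PS B)).eval (x6 j) =
        2 * ((x6 j ^ 3 - 7 * x6 j) * (3 * x6 j ^ 2 - 7)) := by
      have hder : derivative ((X ^ 3 - C 7 * X : ℚ[X]) ^ 2 - C (k ^ 2)) =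
          C 2 * (X ^ 3 - C 7 * X) * (C 3 * X ^ 2 - C 7) := by
        rw [derivative_sub, derivative_C, sub_zero, derivative_sq, derivative_sub,
          derivative_X_pow, derivative_C_mul, derivative_X]
        norm_num
      rw [k6, hder]
      simp only [eval_mul, eval_sub, eval_pow, eval_X, eval_C]
      ring
    rw [PS_union k2, derivative_mul, eval_add, eval_mul, eval_mul, eq6_block k6 j, hB, h3 j] at h0
    by_cases hd : (derivative (PS T)).eval (x6 j) = 0
    · rw [hd, zero_mul, zero_add] at h0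
      have := dx6 j
      rcases mul_eq_zero.1 h0 with h4 | h4
      · exact h2.ne' h4
      · rcases mul_eq_zero.1 h4 with h5 | h5
        · norm_num at h5
        · exact this h5
    · apply k5
      rw [Finset.mem_image]
      refine ⟨j, Finset.mem_univ _, ?_⟩
      field_simp
      linear_combination h0
  · intro r₁ r₂ hr
    rw [k7, FP_re k2 k6] at hno
    obtain ⟨v₁, v₂, e1, e2, e3⟩ := hC (re (T ∪ B)) (by rw [re_card, hcard]; omega) hno r₁ r₂
      (by rw [re_card]; exact hr)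
    refine ⟨v₁, v₂, e1, e2, fun v h5 h6 => ?_⟩
    have := e3 v h5 h6
    simp only [PR_ev] at this
    exact this

/-- the data of a set of rational numbers, with its real zeros -/
lemma of_set6' (n : ℕ) (S : Finset ℚ) (v : ℚ) (hcard : S.card = n) (hv : 0 < v) (h3 : Eq6 S v)
    (hd : ∀ j, (derivative (PS S)).eval (x6 j) ≠ 0) (hlt : ∃ s ∈ S, 3 < s) :
    ∃ (D : Dat n 6) (M : ℝ), 0 < M ∧
      ∀ x : ℝ, ∏ i, (M * x - (D.a i : ℝ)) = M ^ n * ev S x := by
  classical
  let e : Fin n ≃ S := (S.equivFinOfCardEq hcard).symm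
  let D : ℕ := ∏ t ∈ S, t.den
  have hD : 0 < D := Finset.prod_pos fun t _ => t.den_pos
  have hDQ : (0 : ℚ) < D := by exact_mod_cast hD
  have hz : ∀ i : Fin n, ∃ z : ℤ, (z : ℚ) = D * (e i : ℚ) := by
    intro i
    obtain ⟨m, hm⟩ : (e i : ℚ).den ∣ D := Finset.dvd_prod_of_mem _ (e i).2
    refine ⟨m * (e i : ℚ).num, ?_⟩
    rw [hm]
    push_cast
    have h1 := Rat.num_div_den (e i : ℚ)
    have h2 : ((e i : ℚ).den : ℚ) ≠ 0 := by exact_mod_cast (e i : ℚ).den_ne_zero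
    rw [div_eq_iff h2] at h1
    rw [h1]
    ring
  choose a ha using hz
  let b : Fin 6 → ℤ := ![-(3 * D : ℤ), -(2 * D : ℤ), -(D : ℤ), (D : ℤ), (2 * D : ℤ), (3 * D : ℤ)]
  have hb : ∀ j, (b j : ℚ) = D * x6 j := by
    intro j
    fin_cases j <;> simp [b, x6, mul_comm]
  have hprod : ∀ y : ℚ, ∏ i, (y - (e i : ℚ)) = (PS S).eval y := by
    intro y
    unfold PS
    rw [eval_prod, Equiv.prod_comp e (fun s : S => y - (s : ℚ)),
      Finset.prod_coe_sort S (fun s => y - s)]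
    exact Finset.prod_congr rfl fun s _ => by simp
  have hev : ∀ (z : ℤ) (y : ℚ), (z : ℚ) = D * y →
      (((pA a).eval z : ℤ) : ℚ) = (D : ℚ) ^ n * (PS S).eval y := by
    intro z y hzy
    unfold pA
    rw [eval_prod]
    simp only [eval_sub, eval_X, eval_C]
    push_cast
    rw [← hprod y]
    have : ∀ i, (z : ℚ) - (a i : ℚ) = D * (y - (e i : ℚ)) := by
      intro i
      rw [hzy, ha]
      ring
    rw [Finset.prod_congr rfl fun i _ => this i, Finset.prod_mul_distrib, Finset.prod_const,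
      Finset.card_univ, Fintype.card_fin]
  have hx1 : ∀ j, x6 j ≤ 3 := by
    intro j
    fin_cases j <;> simp [x6] <;> norm_num
  have hxinj : Function.Injective x6 := by
    intro i j hij
    fin_cases i <;> fin_cases j <;> simp [x6] at hij ⊢ <;> norm_num at hij
  have hcomp : ((pA a).map (Int.castRingHom ℚ)).comp (C (D : ℚ) * X) =
      C ((D : ℚ) ^ n) * PS S := by
    unfold pA PS
    rw [Polynomial.map_prod, prod_comp]
    have h1 : ∏ s ∈ S, (X - C s : ℚ[X]) = ∏ i, (X - C (e i : ℚ)) := by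
      rw [Equiv.prod_comp e (fun s : S => (X - C (s : ℚ) : ℚ[X])),
        Finset.prod_coe_sort S (fun s => (X - C s : ℚ[X]))]
    rw [h1]
    have h2 : ∀ i, ((X - C (a i)).map (Int.castRingHom ℚ)).comp (C (D : ℚ) * X) =
        C (D : ℚ) * (X - C (e i : ℚ)) := by
      intro i
      rw [Polynomial.map_sub, map_X, map_C, sub_comp, X_comp, C_comp]
      change C (D : ℚ) * X - C ((a i : ℤ) : ℚ) = _
      rw [ha, C_mul]
      ring
    rw [Finset.prod_congr rfl fun i _ => h2 i, Finset.prod_mul_distrib, Finset.prod_const,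
      Finset.card_univ, Fintype.card_fin, C_pow]
  have hder : ∀ j, (derivative (pA a)).eval (b j) ≠ 0 := by
    intro j h0
    apply hd j
    have h1 := congrArg derivative hcomp
    rw [derivative_comp, derivative_C_mul, derivative_C_mul, derivative_X, mul_one] at h1
    have h2 := congrArg (eval (x6 j)) h1
    rw [eval_mul, eval_C, eval_comp, eval_mul, eval_C, eval_X, eval_mul, eval_C] at h2
    have h4 : eval ((D : ℚ) * x6 j) (derivative ((pA a).map (Int.castRingHom ℚ))) = 0 := by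
      rw [← hb j, derivative_map]
      have h5 : ((b j : ℤ) : ℚ) = Int.castRingHom ℚ (b j) := rfl
      rw [h5, eval_map, eval₂_hom, h0, map_zero]
    rw [h4, mul_zero] at h2
    have h5 : ((D : ℚ) ^ n) ≠ 0 := by positivity
    exact (mul_eq_zero.1 h2.symm).resolve_left h5
  have haInj : Function.Injective a := by
    intro i j hij
    apply e.injective
    apply Subtype.ext
    have h1 := ha i
    rw [hij, ha j] at h1
    exact (mul_left_cancel₀ hDQ.ne' h1).symm
  refine ⟨{ a := a, b := b, c := (pA a).eval (b 0), ha := haInj, hb := ?_, hc := ?_, hab := ?_,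
            hder := hder, hlt := ?_ }, D, by exact_mod_cast hD, ?_⟩
  · intro i j hij
    apply hxinj
    have h1 := hb i
    rw [hij, hb j] at h1
    exact (mul_left_cancel₀ hDQ.ne' h1).symm
  · have h1 := hev (b 0) (x6 0) (hb 0)
    rw [h3 0] at h1
    have h2 : (0 : ℚ) < (((pA a).eval (b 0) : ℤ) : ℚ) := by
      rw [h1]
      positivity
    exact_mod_cast h2
  · intro j
    have h1 := hev (b j) (x6 j) (hb j)
    have h2 := hev (b 0) (x6 0) (hb 0)
    rw [h3 j] at h1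
    rw [h3 0, ← h1] at h2
    exact_mod_cast h2.symm
  · intro j
    obtain ⟨s, hs, hs1⟩ := hlt
    refine ⟨e.symm ⟨s, hs⟩, ?_⟩
    have h1 := ha (e.symm ⟨s, hs⟩)
    rw [Equiv.apply_symm_apply] at h1
    have h2 : ((b j : ℤ) : ℚ) < (a (e.symm ⟨s, hs⟩) : ℤ) := by
      rw [h1, hb j]
      apply mul_lt_mul_of_pos_left _ hDQ
      exact (hx1 j).trans_lt hs1
    exact_mod_cast h2
  · intro x
    have h1 : ∀ i, (D : ℝ) * x - (a i : ℝ) = D * (x - ((e i : ℚ) : ℝ)) := by
      intro i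
      have h2 : ((a i : ℚ) : ℝ) = ((D * (e i : ℚ) : ℚ) : ℝ) := by rw [ha]
      push_cast at h2
      rw [h2]
      ring
    rw [Finset.prod_congr rfl fun i _ => h1 i, Finset.prod_mul_distrib, Finset.prod_const,
      Finset.card_univ, Fintype.card_fin]
    congr 1
    unfold ev
    rw [Equiv.prod_comp e (fun s : S => x - ((s : ℚ) : ℝ)),
      Finset.prod_coe_sort S (fun s => x - ((s : ℚ) : ℝ))]

/-- the data and the intervals -/
theorem data (hC : S_CNT) (hT : S_TIE) (hR : S_RAT) (l : List (ℤ × ℤ)) (c : ℤ) (hb : blk l c)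
    (h1 : (ir 7 1 l).2 ≠ 0) (h2 : (ir 21 3 l).2 ≠ 0) (n m : ℕ) (hn : n = l.length + 6 * (m + 1))
    (r₁ r₂ : ℕ) (hr : r₁ + 2 * r₂ = n) :
    ∃ (D : Dat n 6) (v₁ v₂ : ℝ), 0 < v₁ ∧ v₁ < v₂ ∧ ∀ v, v₁ < v → v < v₂ →
      {X : ℝ | ∏ i, (X - (D.a i : ℝ)) = - v}.ncard = r₁ := by
  classical
  have hok := hb.1
  obtain ⟨S, v, s1, s2, s3, s4⟩ : ∃ (S : Finset ℚ) (v : ℚ), S.card = l.length ∧ 0 < v ∧ Eq6 S v ∧
      (∃ s ∈ S, 3 < s) ∧ CC S := by
    have hc := cc_list l hok h1 h2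
    obtain ⟨hok, e1, e2, e3, e4, e5, e6, hc0, p, hp, hp3⟩ := hb
    have hnd := hok.nodup
    have hd := dn_pos l hok.1
    have hdQ : (0 : ℚ) < dn l := by exact_mod_cast hd
    have hcQ : (0 : ℚ) < c := by exact_mod_cast hc0
    refine ⟨(l.map fr).toFinset, (c : ℚ) / dn l, ?_, by positivity, ?_, ⟨fr p, ?_, ?_⟩, hc⟩
    · rw [List.toFinset_card_of_nodup hnd, List.length_map]
    · have hev : ∀ x : ℤ, (PS (l.map fr).toFinset).eval (x : ℚ) = (nm x l : ℚ) / dn l := by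
        intro x
        rw [← eval_list l hok.1 x]
        unfold PS
        rw [eval_prod, List.prod_toFinset _ hnd]
        congr 1
        apply List.map_congr_left
        intro s _
        simp
      intro j
      fin_cases j
      · have := hev (-3); rw [e1] at this; simpa [x6] using this
      · have := hev (-2); rw [e2] at this; simpa [x6] using this
      · have := hev (-1); rw [e3] at this; simpa [x6] using this
      · have := hev 1; rw [e4] at this; simpa [x6] using this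
      · have := hev 2; rw [e5] at this; simpa [x6] using this
      · have := hev 3; rw [e6] at this; simpa [x6] using this
    · rw [List.mem_toFinset, List.mem_map]
      exact ⟨p, hp, rfl⟩
    · have h1 : (0 : ℚ) < p.2 := by exact_mod_cast hok.1 p hp
      unfold fr
      rw [lt_div_iff₀ h1]
      exact_mod_cast hp3
  obtain ⟨T, w, t1, t2, t3, t4, t5, t6⟩ := last hC hT hR S v s2 s3 s4.1 s4.2 m
  have hTn : T.card = n := by rw [t1, s1, hn]
  obtain ⟨D, M, hM, hDM⟩ := of_set6' n T w hTn t2 t3 t4 t5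
  obtain ⟨v₁, v₂, u1, u2, u3⟩ := t6 r₁ r₂ (by rw [hTn]; exact hr)
  have hMn : 0 < M ^ n := pow_pos hM n
  refine ⟨D, M ^ n * v₁, M ^ n * v₂, mul_pos hMn u1, mul_lt_mul_of_pos_left u2 hMn,
    fun v hv1 hv2 => ?_⟩
  have h3 := u3 (v / M ^ n) ((lt_div_iff₀' hMn).2 hv1) ((div_lt_iff₀' hMn).2 hv2)
  rw [← h3]
  have h4 : {X : ℝ | ∏ i, (X - (D.a i : ℝ)) = - v} =
      (fun x => M * x) '' {x : ℝ | ev T x = - (v / M ^ n)} := by
    ext X
    simp only [Set.mem_ofPred_eq, Set.mem_image]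
    constructor
    · intro hX
      refine ⟨X / M, ?_, by field_simp⟩
      have h5 := hDM (X / M)
      rw [mul_div_cancel₀ _ hM.ne', hX] at h5
      rw [eq_comm, ← neg_div, div_eq_iff hMn.ne']
      linarith
    · rintro ⟨x, hx, rfl⟩
      rw [hDM x, hx]
      field_simp
  rw [h4, Set.ncard_image_of_injective _ (mul_right_injective₀ hM.ne')]

end Run7.h241.CS
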