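import Pool.Agent.TH665.CG6.Fin
import Pool.Agent.Run7.h241.CS.Fin

/-!
# The explicit blocks, and all degrees
-/

set_option autoImplicit false
set_option maxRecDepth 100000

namespace Run7.h241.CS

open Pool.Agent.W289.CG Pool.Agent.TH665.CG6

/-- a block of size 64 -/
def M4 : List (ℤ × ℤ) :=
  [(-53, 1), (-15, 1), (-11, 2), (-83, 19), (-4, 1), (-11, 3), (-94, 31), (-38, 13), (-8, 3), (-47, 19), (-7, 3), (-17, 9), (-11, 7), (-6, 7), (-4, 7), (-6, 11), (1, 7), (6, 11), (6, 7), (3, 2), (11, 7), (29, 13), (9, 4), (47, 19), (38, 13), (94, 31), (17, 5), (4, 1), (83, 19), (9, 2), (5, 1), (-1, 7), (-18, 7), (19, 7), (-9, 43), (-109, 43), (118, 43), (29, 73), (177, 73), (-206, 73), (114, 103), (197, 103), (-311, 103), (74, 133), (309, 133), (-383, 133), (-2, 223), (-589, 223), (591, 223), (-162, 241), (-541, 241), (703, 241), (-383, 331), (-619, 331), (1002, 331), (317, 421), (921, 421), (-1238, 421), (193, 559), (1373, 559),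 (-1566, 559), (-837, 721), (-1346, 721), (2183, 721)]

lemma blk_M4 : blk M4 550493389917493263937902509839414891499242733420283784571158073409484453058984182675616563200000000000000000000000 := by
  unfold blk okL
  decide +kernel

lemma ir7_M4 : (ir 7 1 M4).2 ≠ 0 := by decide +kernel

lemma ir21_M4 : (ir 21 3 M4).2 ≠ 0 := by decide +kernel

/-- a block of size 62 -/
def M2 : List (ℤ × ℤ) :=
  [(-18, 1), (-15, 1), (-14, 1), (-13, 1), (-12, 1), (-10, 1), (-9, 1), (-8, 1), (-13, 4), (-38, 13), (-8, 3), (-7, 3), (-9, 4), (-2, 5), (-1, 9), (-1, 13), (1, 13), (1, 9), (3, 7), (29, 13), (7, 3), (8, 3), (38, 13), (13, 4), (5, 1), (11, 2), (7, 1), (15, 1), (18, 1), (-1, 7), (-18, 7), (19, 7), (-9, 43), (-109, 43), (118, 43), (29, 73), (177, 73), (-206, 73), (114, 103), (197, 103), (-311, 103), (74, 133), (309, 133), (-383, 133), (-2, 223), (-589, 223), (591, 223), (-162, 241), (-541, 241), (703, 241), (-383, 331), (-619, 331),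 (1002, 331), (317, 421), (921, 421), (-1238, 421), (193, 559), (1373, 559), (-1566, 559), (-837, 721), (-1346, 721), (2183, 721)]

lemma blk_M2 : blk M2 6772451701911662791258836886136287838957272685175726435413107611227793711551864459231232000000000000000000000 := by
  unfold blk okL
  decide +kernel

lemma ir7_M2 : (ir 7 1 M2).2 ≠ 0 := by decide +kernel

lemma ir21_M2 : (ir 21 3 M2).2 ≠ 0 := by decide +kernel

/-- a block of size 84 -/
def M0 : List (ℤ × ℤ) :=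
  [(-23, 1), (-19, 1), (-14, 1), (-12, 1), (-9, 1), (-6, 1), (-9, 2), (-83, 19), (-4, 1), (-7, 2), (-17, 5), (-13, 4), (-94, 31), (-38, 13), (-47, 19), (-9, 4), (-33, 16), (-5, 3), (-29, 23), (-3, 5), (-4, 7), (-2, 5), (-1, 4), (-1, 7), (1, 2), (4, 7), (3, 4), (29, 23), (5, 3), (33, 16), (9, 4), (12, 5), (38, 13), (94, 31), (13, 4), (17, 5), (7, 2), (11, 3), (4, 1), (9, 2), (11, 2), (9, 1), (14, 1), (19, 1), (23, 1), (-31, 13), (-6, 13), (37, 13), (59, 37), (54, 37), (-113, 37), (87, 37), (19, 37), (-106, 37), (87, 49), (62, 49), (-149, 49), (141, 67), (58, 67), (-199, 67), (271, 103), (3, 103), (-274, 103), (-197, 103), (-114, 103), (311, 103), (-167, 109), (-166, 109), (333, 109), (-309, 133), (-74, 133), (383, 133), (283, 151), (174, 151), (-457, 151), (417, 181), (106, 181), (-523, 181), (-417, 241), (-317, 241), (734, 241), (-1346, 721), (-837, 721), (2183, 721)]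

lemma blk_M0 : blk M0 632791221146146061316257031380695098580436587743266373751790796567856772005750035741464329839174324584448000000000000000000000000000 := by
  unfold blk okL
  decide +kernel

lemma ir7_M0 : (ir 7 1 M0).2 ≠ 0 := by decide +kernel

lemma ir21_M0 : (ir 21 3 M0).2 ≠ 0 := by decide +kernel

lemma ir7_L1 : (ir 7 1 L1).2 ≠ 0 := by decide +kernel

lemma ir21_L1 : (ir 21 3 L1).2 ≠ 0 := by decide +kernel

lemma ir7_L3 : (ir 7 1 L3).2 ≠ 0 := by decide +kernel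

lemma ir21_L3 : (ir 21 3 L3).2 ≠ 0 := by decide +kernel

lemma ir7_L5 : (ir 7 1 L5).2 ≠ 0 := by decide +kernel

lemma ir21_L5 : (ir 21 3 L5).2 ≠ 0 := by decide +kernel

/-- the degrees -/
def Deg (n : ℕ) : Prop :=
  (35 ≤ n ∧ (n % 6 = 1 ∨ n % 6 = 5)) ∨ (47 ≤ n ∧ n % 2 = 1) ∨ (68 ≤ n ∧ n % 6 ≠ 0) ∨ 85 ≤ n

theorem all6 (hC : S_CNT) (hT : S_TIE) (hR : S_RAT) (n r₁ r₂ : ℕ) (hn : Deg n)
    (hr : r₁ + 2 * r₂ = n) :
    ∃ (D : Dat n 6) (v₁ v₂ : ℝ), 0 < v₁ ∧ v₁ < v₂ ∧ ∀ v, v₁ < v → v < v₂ →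
      {X : ℝ | ∏ i, (X - (D.a i : ℝ)) = - v}.ncard = r₁ := by
  have h1 : L1.length = 31 := rfl
  have h3 : L3.length = 45 := rfl
  have h5 : L5.length = 29 := rfl
  have h0 : M0.length = 84 := rfl
  have h2 : M2.length = 62 := rfl
  have h4 : M4.length = 64 := rfl
  unfold Deg at hn
  have hcase : n % 6 = 0 ∨ n % 6 = 1 ∨ n % 6 = 2 ∨ n % 6 = 3 ∨ n % 6 = 4 ∨ n % 6 = 5 := by omega
  rcases hcase with h | h | h | h | h | h
  · exact data hC hT hR M0 _ blk_M0 ir7_M0 ir21_M0 n ((n - 84) / 6 - 1) (by rw [h0]; omega) r₁ r₂ hr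
  · exact data hC hT hR L1 _ b1 ir7_L1 ir21_L1 n ((n - 31) / 6 - 1) (by rw [h1]; omega) r₁ r₂ hr
  · exact data hC hT hR M2 _ blk_M2 ir7_M2 ir21_M2 n ((n - 62) / 6 - 1) (by rw [h2]; omega) r₁ r₂ hr
  · exact data hC hT hR L3 _ b3 ir7_L3 ir21_L3 n ((n - 45) / 6 - 1) (by rw [h3]; omega) r₁ r₂ hr
  · exact data hC hT hR M4 _ blk_M4 ir7_M4 ir21_M4 n ((n - 64) / 6 - 1) (by rw [h4]; omega) r₁ r₂ hr
  · exact data hC hT hR L5 _ b5 ir7_L5 ir21_L5 n ((n - 29) / 6 - 1) (by rw [h5]; omega) r₁ r₂ hr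

end Run7.h241.CS
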