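import Pool.Agent.N53.CL.Both
import Pool.Agent.Run7.h241.CS.Lists

/-!
# The fields
-/

set_option autoImplicit false

namespace Run7.h241.CS

open NumberField Pool.Agent.W289.CG Pool.Agent.N53.CL

/-- as in the starting file `PrescribedLocalBehaviour` (there `fields_of_data`) -/
theorem fields_of_data {n κ r₁ r₂ : ℕ} (hn : 3 ≤ n) (hκ : 1 ≤ κ) (hr : r₁ + 2 * r₂ = n)
    (D : Dat n κ) (v₁ v₂ : ℝ) (h₁ : 0 < v₁) (h₁₂ : v₁ < v₂) (hcount : ∀ v, v₁ < v → v < v₂ →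
      {X : ℝ | ∏ i, (X - (D.a i : ℝ)) = - v}.ncard = r₁) :
  ∃ Z : ℕ, 0 < Z ∧ ∀ m N R : ℕ, 2 ≤ m → ∀ S T : Finset ℕ,
    (∀ p ∈ S, p.Prime ∧ ¬ p ∣ Z) → (∀ q ∈ T, q.Prime ∧ ¬ q ∣ Z ∧ ¬ q ∣ m) → Disjoint S T →
    ∃ (K : Type) (_ : Field K) (_ : NumberField K), Module.finrank ℚ K = n ∧
      InfinitePlace.nrRealPlaces K = r₁ ∧ InfinitePlace.nrComplexPlaces K = r₂ ∧
      (N : ℤ) < |discr K| ∧
      (∃ f : Multiplicative (Fin (r₂ + κ) → ZMod m) →* ClassGroup (𝓞 K), Function.Injective f) ∧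
      (∃ f : Multiplicative (Fin R → ZMod n) →* ClassGroup (𝓞 K), Function.Injective f) ∧
      (∀ p ∈ S, ∃ P : Fin n → Ideal (𝓞 K), Function.Injective P ∧ (∀ i, (P i).IsPrime) ∧
        ∏ i, P i = Ideal.span {(p : 𝓞 K)}) ∧
      ∀ q ∈ T, ∃ P : Ideal (𝓞 K), P.IsPrime ∧ P ^ n = Ideal.span {(q : 𝓞 K)} := by
  have hZ0 : D.c * |D.bad| ≠ 0 := (mul_pos D.hc (abs_pos.2 (bad_ne D))).ne'
  refine ⟨(D.c * |D.bad|).natAbs, Int.natAbs_pos.2 hZ0, fun m N R hm S T hS hT hST => ?_⟩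
  obtain ⟨K, hK1, hK2, hfr, hreal, hdisc, hspl, hram, hcl, hR⟩ :=
    of_both (by omega) hκ D r₁ v₁ v₂ h₁ h₁₂ hcount m N R hm S T
      (fun p hp => ⟨(hS p hp).1, fun h => (hS p hp).2 (Int.natCast_dvd.1 h)⟩)
      (fun q hq => ⟨(hT q hq).1, fun h => (hT q hq).2.1 (Int.natCast_dvd.1 h)⟩) hST
      (fun q hq => (hT q hq).2.2)
  have h8 := InfinitePlace.card_add_two_mul_card_eq_rank K
  have h7 := rank_eq K
  refine ⟨K, hK1, hK2, hfr, hreal, ?_, hdisc, hcl (r₂ + κ) ?_, hR, hspl, hram⟩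
  · omega
  · omega

end Run7.h241.CS
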